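import Mathlib
import Pool.Agent.Lib.helper3.TzD

namespace Pool.Agent.Results.MP_76760e_an.Classification

open Pool.Agent.Lib.H3Tz

theorem result (A : Type*) [NonUnitalCStarAlgebra A] :
    (∀ Λ : Finset (Fin 2 → ℤ), ExtProp ℂ Λ ↔ ExtProp A Λ) ↔
      Nontrivial A ∧ (∀ a b : A, a * b = b * a) ∧ FSpec A :=
  ⟨necessary, fun h => sufficient h⟩

end Pool.Agent.Results.MP_76760e_an.Classification
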