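import Mathlib
import Pool.Agent.Lib.helper3.TzD

namespace Pool.Agent.Results.MP_76760e_an.IntervalCounterexample

open Pool.Agent.Lib.H3Tz

theorem result : ∃ Λ : Finset (Fin 2 → ℤ),
    ExtProp ℂ Λ ∧ ¬ ExtProp C(Set.Icc (-1 : ℝ) 1, ℂ) Λ := by
  refine ⟨L0, ext_L0, fun h => ?_⟩
  obtain ⟨Y, _, _, _, y0, ψ, hψ⟩ := exists_model C(Set.Icc (-1 : ℝ) 1, ℂ) mul_comm
  have := (fspec_iff _).mp (hψ.spec_of_F (hψ.F_of_ext h))
    ⟨fun x => (max x.1 0 : ℝ), by fun_prop⟩ ⟨fun x => (min x.1 0 : ℝ), by fun_prop⟩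
    (by
      ext x
      rcases le_total x.1 0 with h | h <;> simp [h])
  refine @Set.disjoint_left.mp this ⟨0, by norm_num⟩ ?_ ?_ <;> rw [closure_subtype]
  · have h0 : (0:ℝ) ∈ closure (Set.Ioo (0 : ℝ) 1) := by rw [closure_Ioo zero_ne_one]; simp
    refine closure_mono (fun x hx => ?_) h0
    exact ⟨⟨x, by linarith [hx.1], hx.2.le⟩, by simp [hx.1], rfl⟩
  · have h0 : (0:ℝ) ∈ closure (Set.Ioo (-1 : ℝ) 0) := by rw [closure_Ioo (by norm_num)]; simp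
    refine closure_mono (fun x hx => ?_) h0
    exact ⟨⟨x, hx.1.le, by linarith [hx.2]⟩, by simp [hx.2], rfl⟩

end Pool.Agent.Results.MP_76760e_an.IntervalCounterexample
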